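import Mathlib

/-!
# Neighborhood Lights Out (MP_7a9eeb_co, Q1): disproof for every `k ≥ 5`

Q1 asks whether `max(n, ℓ) = C(n,2) - (n/2 + k)` whenever `n, ℓ` are even and `k = k(n, ℓ) ≥ 4`.
Let `H` be the disjoint union of `K_4` and `r` single edges, `n = 4 + 2r`, and let `G` be the
complement of `H`.  The determinant of the closed neighbourhood matrix of `G` is `±(3n - 11)`, so
`G` is always winnable over `ℤ/ℓ` when `gcd(3n - 11, ℓ) = 1`, and it has
`C(n,2) - (n/2 + 4)` edges.  For every `k ≥ 5` we produce arbitrarily large even `n` and even `ℓ`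
with `k(n, ℓ) = k` and `gcd(3n - 11, ℓ) = 1`; then the conjectured formula fails.
-/

set_option autoImplicit false

namespace Pool.Agent.Results.MP_7a9eeb_co.LightsOutDisproof

section Defs

variable {V : Type*}

open Classical in
/-- Toggling the vertex `v` adds `1` (mod `ℓ`) to the label of every vertex of the closed
neighbourhood `N[v]`. -/
noncomputable def toggle (G : SimpleGraph V) (ℓ : ℕ) (lab : V → ZMod ℓ) (v : V) : V → ZMod ℓ :=
  fun u => if u = v ∨ G.Adj v u then lab u + 1 else lab u

/-- `G` is always winnable: from every initial labeling some finite sequence of moves leads to the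
all-zero labeling. -/
def AlwaysWinnable (G : SimpleGraph V) (ℓ : ℕ) : Prop :=
  ∀ lab : V → ZMod ℓ, ∃ moves : List V, moves.foldl (toggle G ℓ) lab = fun _ => 0

/-- `max(n, ℓ)`: the largest number of edges of an always winnable graph on `n` vertices. -/
noncomputable def maxEdges (n ℓ : ℕ) : ℕ :=
  sSup {m | ∃ G : SimpleGraph (Fin n), AlwaysWinnable G ℓ ∧ G.edgeSet.ncard = m}

/-- `k(n, ℓ)`: the least nonnegative integer `k` with `gcd(n - 2k - 1, ℓ) = 1`. -/
noncomputable def kInv (n ℓ : ℕ) : ℕ :=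
  sInf {k : ℕ | Int.gcd ((n : ℤ) - 2 * k - 1) ℓ = 1}

end Defs

section Linear

variable {V : Type*} [Fintype V]

omit [Fintype V] in
open Classical in
theorem foldl_toggle (G : SimpleGraph V) (ℓ : ℕ) (moves : List V) (lab : V → ZMod ℓ) (u : V) :
    moves.foldl (toggle G ℓ) lab u
      = lab u + ((moves.map fun v => if u = v ∨ G.Adj v u then (1 : ZMod ℓ) else 0).sum) := by
  induction moves generalizing lab with
  | nil => simp
  | cons v moves ih =>
    simp only [List.foldl_cons, ih, List.map_cons, List.sum_cons, toggle]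
    split_ifs <;> ring

open Classical in
/-- A graph is always winnable as soon as its closed neighbourhood system can be solved. -/
theorem alwaysWinnable_of_solve (G : SimpleGraph V) (ℓ : ℕ) [NeZero ℓ]
    (h : ∀ c : V → ZMod ℓ, ∃ x : V → ZMod ℓ, ∀ u,
      ∑ v, (if u = v ∨ G.Adj v u then x v else 0) = c u) : AlwaysWinnable G ℓ := by
  intro lab
  obtain ⟨x, hx⟩ := h (fun u => - lab u)
  refine ⟨(Finset.univ : Finset V).toList.flatMap fun v => List.replicate (x v).val v, ?_⟩
  funext u
  rw [foldl_toggle, List.map_flatMap, List.flatMap_def, List.sum_flatten, List.map_map]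
  have : (List.map (List.sum ∘ fun v => List.map (fun v => if u = v ∨ G.Adj v u then (1 : ZMod ℓ) else 0)
      (List.replicate (x v).val v)) (Finset.univ : Finset V).toList).sum
      = ∑ v, (if u = v ∨ G.Adj v u then x v else 0) := by
    rw [Finset.sum_map_toList]
    apply Finset.sum_congr rfl
    intro v _
    simp only [Function.comp_apply, List.map_replicate, List.sum_replicate]
    split_ifs <;> simp
  rw [this, hx u]
  ring

end Linear

section Construction

/-- `K_4` together with `r` disjoint edges, on `4 + 2r` vertices. -/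
def core (r : ℕ) : SimpleGraph (Fin 4 ⊕ (Fin r × Bool)) where
  Adj x y := match x, y with
    | .inl i, .inl j => i ≠ j
    | .inr a, .inr b => a.1 = b.1 ∧ a.2 ≠ b.2
    | _, _ => False
  symm := ⟨by
    rintro (x | x) (y | y) h
    · exact h.symm
    · exact h
    · exact h
    · exact ⟨h.1.symm, h.2.symm⟩⟩
  loopless := ⟨by
    rintro (x | x) h
    · exact h rfl
    · exact h.2 rfl⟩


instance (r : ℕ) : DecidableRel (core r).Adj := fun x y =>
  match x, y with
  | .inl i, .inl j => inferInstanceAs (Decidable (i ≠ j))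
  | .inr a, .inr b => inferInstanceAs (Decidable (a.1 = b.1 ∧ a.2 ≠ b.2))
  | .inl _, .inr _ => isFalse id
  | .inr _, .inl _ => isFalse id

@[simp] theorem adj_ll (r : ℕ) (i j : Fin 4) : (core r).Adj (.inl i) (.inl j) ↔ i ≠ j := Iff.rfl
@[simp] theorem adj_lr (r : ℕ) (i : Fin 4) (b : Fin r × Bool) :
    ¬ (core r).Adj (.inl i) (.inr b) := id
@[simp] theorem adj_rl (r : ℕ) (i : Fin 4) (b : Fin r × Bool) :
    ¬ (core r).Adj (.inr b) (.inl i) := id
@[simp] theorem adj_rr (r : ℕ) (a b : Fin r × Bool) :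
    (core r).Adj (.inr a) (.inr b) ↔ a.1 = b.1 ∧ a.2 ≠ b.2 := Iff.rfl

theorem closed_iff (r : ℕ) (u v : Fin 4 ⊕ (Fin r × Bool)) :
    (u = v ∨ (core r)ᶜ.Adj v u) ↔ ¬ (core r).Adj v u := by
  rw [SimpleGraph.compl_adj]
  constructor
  · rintro (rfl | h)
    · exact (core r).loopless.irrefl _
    · exact h.2
  · intro h
    by_cases huv : u = v
    · exact Or.inl huv
    · exact Or.inr ⟨fun h' => huv h'.symm, h⟩

open Classical in
theorem solve_core (r ℓ : ℕ) (d : ZMod ℓ) (hd : d * (1 + 6 * (r : ZMod ℓ)) = 1)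
    (c : Fin 4 ⊕ (Fin r × Bool) → ZMod ℓ) :
    ∃ x : Fin 4 ⊕ (Fin r × Bool) → ZMod ℓ, ∀ u,
      ∑ v, (if u = v ∨ (core r)ᶜ.Adj v u then x v else 0) = c u := by
  set C4 : ZMod ℓ := ∑ i : Fin 4, c (.inl i) with hC4
  set Cp : ZMod ℓ := ∑ b : Fin r × Bool, c (.inr b) with hCp
  set P : ZMod ℓ := d * (2 * r * C4 - Cp) with hP
  refine ⟨fun v => match v with
    | .inl i => c (.inl i) - P
    | .inr (a, p) => C4 - 3 * P - c (.inr (a, !p)), ?_⟩
  have hPeq : (1 + 6 * (r : ZMod ℓ)) * P = 2 * r * C4 - Cp := by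
    rw [hP]; linear_combination (2 * r * C4 - Cp) * hd
  have hsum : ∑ b : Fin r × Bool, (C4 - 3 * P - c (.inr (b.1, !b.2))) = P := by
    rw [Finset.sum_sub_distrib]
    have h1 : ∑ b : Fin r × Bool, c (.inr (b.1, !b.2)) = Cp := by
      rw [hCp, Fintype.sum_prod_type, Fintype.sum_prod_type]
      apply Finset.sum_congr rfl
      intro a _
      simp [add_comm]
    rw [h1]
    simp only [Finset.sum_const, Finset.card_univ, Fintype.card_prod, Fintype.card_fin,
      Fintype.card_bool, nsmul_eq_mul, Nat.cast_mul, Nat.cast_ofNat]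
    linear_combination -hPeq
  intro u
  simp only [closed_iff]
  rw [Fintype.sum_sum_type]
  rcases u with i | ⟨a, p⟩
  · have e1 : ∑ j : Fin 4, (if ¬ (core r).Adj (.inl j) (.inl i) then c (.inl j) - P else 0)
        = c (.inl i) - P := by
      rw [Finset.sum_eq_single i]
      · simp
      · intro j _ hj; simp [hj]
      · simp
    have e2 : ∑ b : Fin r × Bool, (if ¬ (core r).Adj (.inr b) (.inl i)
        then C4 - 3 * P - c (.inr (b.1, !b.2)) else 0) = P := by
      refine Eq.trans ?_ hsum
      apply Finset.sum_congr rfl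
      intro b _
      simp
    calc _ = (c (.inl i) - P) + P := by rw [← e1]; exact congrArg _ e2
      _ = _ := by ring
  · have e1 : ∑ j : Fin 4, (if ¬ (core r).Adj (.inl j) (.inr (a, p)) then c (.inl j) - P else 0)
        = C4 - 4 * P := by
      have : ∀ j : Fin 4, (if ¬ (core r).Adj (.inl j) (.inr (a, p)) then c (.inl j) - P else 0)
          = c (.inl j) - P := by
        intro j; simp
      rw [Finset.sum_congr rfl (fun j _ => this j), Finset.sum_sub_distrib]
      simp [hC4]
    have e2 : ∑ b : Fin r × Bool, (if ¬ (core r).Adj (.inr b) (.inr (a, p))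
        then C4 - 3 * P - c (.inr (b.1, !b.2)) else 0) = P - (C4 - 3 * P - c (.inr (a, p))) := by
      have : ∀ b : Fin r × Bool, (if ¬ (core r).Adj (.inr b) (.inr (a, p))
          then C4 - 3 * P - c (.inr (b.1, !b.2)) else 0)
          = (C4 - 3 * P - c (.inr (b.1, !b.2)))
            - (if b = (a, !p) then (C4 - 3 * P - c (.inr (b.1, !b.2))) else 0) := by
        rintro ⟨b, q⟩
        by_cases hb : b = a
        · subst hb
          cases p <;> cases q <;> simp
        · simp [hb]
      rw [Finset.sum_congr rfl (fun b _ => this b), Finset.sum_sub_distrib, hsum]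
      simp
    calc _ = (C4 - 4 * P) + (P - (C4 - 3 * P - c (.inr (a, p)))) := by
          rw [← e1]; exact congrArg _ e2
      _ = _ := by ring

/-- Edge count of the core -/
theorem core_edges (r : ℕ) : (core r).edgeFinset.card = 6 + r := by
  have h := (core r).sum_degrees_eq_twice_card_edges
  rw [Fintype.sum_sum_type] at h
  have h1 : ∀ i : Fin 4, (core r).degree (.inl i) = 3 := by
    intro i
    rw [← SimpleGraph.card_neighborFinset_eq_degree]
    have : (core r).neighborFinset (.inl i)
        = (Finset.univ.filter fun j : Fin 4 => j ≠ i).map ⟨Sum.inl, Sum.inl_injective⟩ := by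
      ext x
      rw [SimpleGraph.mem_neighborFinset]
      rcases x with j | b
      · simp [eq_comm]
      · simp
    rw [this, Finset.card_map, Finset.filter_ne', Finset.card_erase_of_mem (Finset.mem_univ _)]
    simp
  have h2 : ∀ b : Fin r × Bool, (core r).degree (.inr b) = 1 := by
    rintro ⟨a, p⟩
    rw [← SimpleGraph.card_neighborFinset_eq_degree, Finset.card_eq_one]
    refine ⟨.inr (a, !p), ?_⟩
    ext x
    rw [SimpleGraph.mem_neighborFinset]
    rcases x with j | ⟨b, q⟩
    · simp
    · cases p <;> cases q <;> simp [eq_comm]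
  simp only [h1, h2, Finset.sum_const, Finset.card_univ, Fintype.card_fin, Fintype.card_prod,
    Fintype.card_bool, smul_eq_mul] at h
  omega


theorem compl_edges (r : ℕ) :
    (core r)ᶜ.edgeSet.ncard = (4 + 2 * r).choose 2 - (6 + r) := by
  classical
  have h : (core r)ᶜ.edgeFinset = (⊤ : SimpleGraph (Fin 4 ⊕ (Fin r × Bool))).edgeFinset
      \ (core r).edgeFinset := by
    rw [← SimpleGraph.edgeFinset_sdiff]
    ext e
    simp only [SimpleGraph.mem_edgeFinset, top_sdiff]
  have h2 : (core r)ᶜ.edgeSet = ((core r)ᶜ.edgeFinset : Set _) := by simp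
  rw [h2, Set.ncard_coe_finset, h, Finset.card_sdiff_of_subset
    (SimpleGraph.edgeFinset_mono le_top), core_edges, SimpleGraph.card_edgeFinset_top_eq_card_choose_two]
  simp only [Fintype.card_sum, Fintype.card_fin, Fintype.card_prod, Fintype.card_bool]
  rw [mul_comm r 2]

theorem bddAbove_edges (n ℓ : ℕ) :
    BddAbove {m | ∃ G : SimpleGraph (Fin n), AlwaysWinnable G ℓ ∧ G.edgeSet.ncard = m} := by
  refine ⟨Nat.card (Sym2 (Fin n)), ?_⟩
  rintro m ⟨G, _, rfl⟩
  exact Set.ncard_le_card _

open Classical in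
theorem le_maxEdges {V : Type} [Fintype V] (G : SimpleGraph V) (n ℓ : ℕ) [NeZero ℓ]
    (hV : Fintype.card V = n)
    (h : ∀ c : V → ZMod ℓ, ∃ x : V → ZMod ℓ, ∀ u,
      ∑ v, (if u = v ∨ G.Adj v u then x v else 0) = c u) :
    G.edgeSet.ncard ≤ maxEdges n ℓ := by
  let e : V ≃ Fin n := Fintype.equivFinOfCardEq hV
  apply le_csSup (bddAbove_edges n ℓ)
  refine ⟨G.comap e.symm, ?_, ?_⟩
  · apply alwaysWinnable_of_solve
    intro c
    obtain ⟨x, hx⟩ := h (c ∘ e)
    refine ⟨x ∘ e.symm, ?_⟩
    intro u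
    have := hx (e.symm u)
    rw [← e.sum_comp]
    simp only [Function.comp_apply, Equiv.symm_apply_apply, SimpleGraph.comap_adj,
      Equiv.apply_symm_apply] at this ⊢
    rw [← this]
    apply Finset.sum_congr rfl
    intro v _
    have hiff : (u = e v) ↔ (e.symm u = v) := by
      constructor
      · rintro rfl; simp
      · rintro rfl; simp
    simp only [hiff]
  · have iso : G.comap e.symm ≃g G := SimpleGraph.Iso.comap e.symm G
    rw [← Nat.card_coe_set_eq, ← Nat.card_coe_set_eq]
    exact Nat.card_congr iso.mapEdgeSet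

/-- If `gcd(3n - 11, ℓ) = 1` with `n = 4 + 2r`, the complement of `K_4 ∪ r K_2` is always
winnable. -/
theorem maxEdges_lower (r ℓ : ℕ) (hℓ : 0 < ℓ) (hco : Nat.Coprime (1 + 6 * r) ℓ) :
    (4 + 2 * r).choose 2 - (6 + r) ≤ maxEdges (4 + 2 * r) ℓ := by
  have : NeZero ℓ := ⟨hℓ.ne'⟩
  rw [← compl_edges]
  apply le_maxEdges
  · simp [mul_comm]
  · have hu : ((1 + 6 * r : ℕ) : ZMod ℓ) * (((1 + 6 * r : ℕ) : ZMod ℓ))⁻¹ = 1 :=
      ZMod.coe_mul_inv_eq_one _ hco
    push_cast at hu
    intro c
    obtain ⟨x, hx⟩ := solve_core r ℓ ((1 + 6 * (r : ZMod ℓ))⁻¹) (by rw [mul_comm]; exact hu) c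
    refine ⟨x, fun u => ?_⟩
    rw [← hx u]
    apply Finset.sum_congr rfl
    intro v _
    congr

end Construction

section Arithmetic

/-- The `k` primes used in the construction, all larger than `6k + 10`. -/
noncomputable def pr (k i : ℕ) : ℕ := Nat.nth Nat.Prime (6 * k + 10 + i)

theorem pr_prime (k i : ℕ) : (pr k i).Prime := Nat.prime_nth_prime _

theorem pr_large (k i : ℕ) : 6 * k + 12 ≤ pr k i := by
  have := Nat.add_two_le_nth_prime (6 * k + 10 + i)
  unfold pr
  omega

theorem pr_inj (k : ℕ) {i j : ℕ} (h : pr k i = pr k j) : i = j := by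
  have := Nat.nth_injective Nat.infinite_setOfPred_prime h
  omega

theorem exists_n (k N : ℕ) : ∃ n : ℕ, N ≤ n ∧ Even n ∧ ∀ i < k, (pr k i : ℤ) ∣ (n : ℤ) - 2 * i - 1 := by
  let s : ℕ → ℕ := fun i => if i = k then 2 else pr k i
  let a : ℕ → ℕ := fun i => if i = k then 0 else 1 + 2 * i
  have hs : ∀ i ∈ Finset.range (k + 1), s i ≠ 0 := by
    intro i _
    simp only [s]
    split_ifs
    · norm_num
    · exact (pr_prime k i).ne_zero
  have hp : ∀ i, Nat.Prime (s i) := by
    intro i
    simp only [s]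
    split_ifs
    · exact Nat.prime_two
    · exact pr_prime k i
  have hinj : ∀ i j, i ≠ j → s i ≠ s j := by
    intro i j hij
    simp only [s]
    have h1 := pr_large k i
    have h2 := pr_large k j
    split_ifs with hi hj hj
    · omega
    · omega
    · omega
    · intro h; exact hij (pr_inj k h)
  have pp : Set.Pairwise (Finset.range (k + 1) : Set ℕ) (Function.onFun Nat.Coprime s) := by
    intro i _ j _ hij
    exact (Nat.coprime_primes (hp i) (hp j)).2 (hinj i j hij)
  obtain ⟨x, hx⟩ := Nat.chineseRemainderOfFinset a s (Finset.range (k + 1)) hs pp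
  let m := ∏ i ∈ Finset.range (k + 1), s i
  have hm : 0 < m := Finset.prod_pos (fun i _ => (hp i).pos)
  have hx' : ∀ i ∈ Finset.range (k + 1), (x + m * N) ≡ a i [MOD s i] := by
    intro i hi
    have hd : s i ∣ m * N := (Finset.dvd_prod_of_mem s hi).mul_right N
    have h0 : m * N ≡ 0 [MOD s i] := (Nat.modEq_zero_iff_dvd).2 hd
    have := (hx i hi).add h0
    simpa using this
  refine ⟨x + m * N, ?_, ?_, ?_⟩
  · calc N = 1 * N := (one_mul N).symm
      _ ≤ m * N := Nat.mul_le_mul_right N hm
      _ ≤ x + m * N := Nat.le_add_left _ _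
  · have := hx' k (by simp)
    simp only [s, a, if_true] at this
    rw [Nat.modEq_zero_iff_dvd] at this
    exact even_iff_two_dvd.2 this
  · intro i hi
    have := hx' i (by simp; omega)
    have hne : i ≠ k := by omega
    simp only [s, a, hne, if_false] at this
    have h2 := (Nat.modEq_iff_dvd.1 this.symm)
    have e : (((x + m * N : ℕ) : ℤ) - 2 * i - 1) = ((x + m * N : ℕ) : ℤ) - ((1 + 2 * i : ℕ) : ℤ) := by
      push_cast; ring
    rw [e]
    exact h2

/-- an integer of small absolute value divisible by a large prime vanishes -/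
theorem small_zero {p : ℕ} {z : ℤ} (h : (p : ℤ) ∣ z) (h1 : |z| < p) : z = 0 :=
  Int.eq_zero_of_abs_lt_dvd h h1

/-- **Disproof of Q1.**  For every `k ≥ 5` and every `N` there are even integers `n ≥ N` and
`ℓ ≥ 2` with `k(n, ℓ) = k` such that `max(n, ℓ) ≥ C(n,2) - (n/2 + 4)`; in particular
`max(n, ℓ) > C(n,2) - (n/2 + k)`. -/
theorem result (k : ℕ) (hk : 5 ≤ k) (N : ℕ) :
    ∃ n ℓ : ℕ, N ≤ n ∧ Even n ∧ Even ℓ ∧ 2 ≤ n ∧ 2 ≤ ℓ ∧ kInv n ℓ = k ∧
      n.choose 2 - (n / 2 + 4) ≤ maxEdges n ℓ ∧
      n.choose 2 - (n / 2 + k) < maxEdges n ℓ := by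
  obtain ⟨n, hnN, hne, hdiv⟩ := exists_n k (N + 2 * k + 20)
  have hPdiv : ∀ i < k, pr k i ∣ ∏ j ∈ Finset.range k, pr k j := fun i hi =>
    Finset.dvd_prod_of_mem (pr k) (Finset.mem_range.2 hi)
  set L := ∏ j ∈ Finset.range k, pr k j with hL
  have hLpos : 0 < L := Finset.prod_pos (fun i _ => (pr_prime k i).pos)
  -- coprimality criterion
  have hcop : ∀ z : ℤ, ¬ (2 : ℤ) ∣ z → (∀ i < k, ¬ (pr k i : ℤ) ∣ z) → Int.gcd z ((2 * L : ℕ) : ℤ) = 1 := by
    intro z h2 hz
    have hz' : Nat.Coprime z.natAbs (2 * L) := by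
      apply Nat.Coprime.mul_right
      · rw [Nat.coprime_comm, Nat.Prime.coprime_iff_not_dvd Nat.prime_two]
        intro h
        exact h2 (Int.natCast_dvd.2 h)
      · apply Nat.Coprime.prod_right
        intro i hi
        rw [Nat.coprime_comm, Nat.Prime.coprime_iff_not_dvd (pr_prime k i)]
        intro h
        exact hz i (Finset.mem_range.1 hi) (Int.natCast_dvd.2 h)
    show Nat.gcd z.natAbs (((2 * L : ℕ) : ℤ)).natAbs = 1
    rw [Int.natAbs_natCast]
    exact hz'
  obtain ⟨q, hq⟩ := hne
  have hnq : n = 4 + 2 * (q - 2) := by omega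
  refine ⟨n, 2 * L, by omega, ⟨q, hq⟩, ⟨L, by ring⟩, by omega, by omega, ?_, ?_⟩
  · -- the value of `k`
    unfold kInv
    apply le_antisymm
    · apply Nat.sInf_le
      show Int.gcd ((n : ℤ) - 2 * k - 1) ((2 * L : ℕ) : ℤ) = 1
      apply hcop
      · intro h; omega
      · intro i hi h
        have h3 := dvd_sub (hdiv i hi) h
        have h4 : ((n : ℤ) - 2 * i - 1) - ((n : ℤ) - 2 * k - 1) = 2 * ((k : ℤ) - i) := by ring
        rw [h4] at h3
        have h5 := pr_large k i
        have := small_zero h3 (by rw [abs_lt]; constructor <;> omega)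
        omega
    · apply le_csInf
      · refine ⟨k, ?_⟩
        show Int.gcd ((n : ℤ) - 2 * k - 1) ((2 * L : ℕ) : ℤ) = 1
        apply hcop
        · intro h; omega
        · intro i hi h
          have h3 := dvd_sub (hdiv i hi) h
          have h4 : ((n : ℤ) - 2 * i - 1) - ((n : ℤ) - 2 * k - 1) = 2 * ((k : ℤ) - i) := by ring
          rw [h4] at h3
          have h5 := pr_large k i
          have := small_zero h3 (by rw [abs_lt]; constructor <;> omega)
          omega
      · intro j hj
        by_contra hlt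
        rw [not_le] at hlt
        have hj' : Int.gcd ((n : ℤ) - 2 * j - 1) ((2 * L : ℕ) : ℤ) = 1 := hj
        have h1 : (pr k j : ℤ) ∣ ((Int.gcd ((n : ℤ) - 2 * j - 1) ((2 * L : ℕ) : ℤ) : ℕ) : ℤ) := by
          apply Int.dvd_coe_gcd (hdiv j hlt)
          exact_mod_cast (hPdiv j hlt).mul_left 2
        rw [hj'] at h1
        have h2 : pr k j ∣ 1 := by exact_mod_cast h1
        exact (pr_prime k j).one_lt.ne' (Nat.dvd_one.1 h2)
  · have hmain : n.choose 2 - (n / 2 + 4) ≤ maxEdges n (2 * L) := by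
      have h1 : n.choose 2 - (n / 2 + 4) = (4 + 2 * (q - 2)).choose 2 - (6 + (q - 2)) := by
        rw [← hnq]; congr 1; omega
      rw [h1]
      have h2 := maxEdges_lower (q - 2) (2 * L) (by omega) (by
        have h3 := hcop ((1 + 6 * (q - 2) : ℕ) : ℤ) (by omega) (by
          intro i hi h
          have h4 : ((1 + 6 * (q - 2) : ℕ) : ℤ) = 3 * ((n : ℤ) - 2 * i - 1) + (6 * i - 8) := by
            push_cast
            have : (n : ℤ) = 2 * q := by omega
            have h5 : ((q - 2 : ℕ) : ℤ) = q - 2 := by omega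
            rw [this, h5]; ring
          rw [h4] at h
          have h5 : (pr k i : ℤ) ∣ (6 * (i : ℤ) - 8) :=
            (dvd_add_right ((hdiv i hi).mul_left 3)).1 h
          have h6 := pr_large k i
          have := small_zero h5 (by rw [abs_lt]; constructor <;> omega)
          omega)
        have h4 : Int.gcd ((1 + 6 * (q - 2) : ℕ) : ℤ) ((2 * L : ℕ) : ℤ) = Nat.gcd (1 + 6 * (q - 2)) (2 * L) :=
          Int.gcd_natCast_natCast _ _
        rw [h4] at h3
        exact h3)
      rw [← hnq] at h2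
      rw [← hnq]
      exact h2
    refine ⟨hmain, lt_of_lt_of_le ?_ hmain⟩
    have hch : n ≤ n.choose 2 := by
      have h3 : 3 ≤ n := by omega
      rw [Nat.choose_two_right]
      apply (Nat.le_div_iff_mul_le (by norm_num)).2
      exact Nat.mul_le_mul_left n (by omega)
    omega

end Arithmetic

end Pool.Agent.Results.MP_7a9eeb_co.LightsOutDisproof
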